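import Pool.Agent.L0h19.QE.Stm

/-!
# Project QE, module MINB: either the block sums are small or `α` is very near a rational number
-/

set_option autoImplicit false
set_option linter.all false

namespace Pool.Agent.L0h28.QE

open Finset Filter Topology
open Pool.Agent.L0h19.QE
open Pool.Agent.L0h87.LE (ee odds Inv MZ RHO HasOddDensity)

theorem sum_mul' {A : Type*} [AddCommMonoid A] (f : ℕ → A) (m K : ℕ) :
    ∑ s ∈ range (m * K), f s = ∑ j ∈ range K, ∑ s ∈ range m, f (m * j + s) := by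
  induction K with
  | zero => simp
  | succ K ih => rw [Nat.mul_succ, Finset.sum_range_add, ih, Finset.sum_range_succ]

theorem bl_split (α : ℝ) (M₁ K i : ℕ) :
    bl α (M₁ * K) i = ∑ j ∈ range K, bl α M₁ (K * i + j) := by
  unfold bl
  rw [sum_mul']
  refine Finset.sum_congr rfl fun j _ => Finset.sum_congr rfl fun s _ => ?_
  congr 4
  ring

theorem sum_split (α : ℝ) (M₁ K I : ℕ) :
    ∑ i ∈ range I, ‖bl α (M₁ * K) i‖ ≤ ∑ i ∈ range (K * I), ‖bl α M₁ i‖ := by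
  rw [sum_mul']
  refine Finset.sum_le_sum fun i _ => ?_
  rw [bl_split]
  exact norm_sum_le _ _

theorem choose_N (c ε : ℝ) (hc : 0 < c) (hε : 0 < ε) : ∃ N₀ : ℕ, ∀ n : ℕ, N₀ ≤ n →
    (n : ℝ)⁻¹ + 1 / (8 * c) * ((n : ℝ)⁻¹ * ∑ i ∈ range n, 1 / ((i : ℝ) + 1)) ≤ ε ^ 2 / 2 := by
  have h1 : Tendsto (fun n : ℕ => (n : ℝ)⁻¹ * ∑ i ∈ range n, 1 / ((i : ℝ) + 1)) atTop (𝓝 0) :=
    (tendsto_one_div_add_atTop_nhds_zero_nat (𝕜 := ℝ)).cesaro
  have h2 : Tendsto (fun n : ℕ => (n : ℝ)⁻¹) atTop (𝓝 0) := tendsto_inv_atTop_nhds_zero_nat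
  have h3 := h2.add (h1.const_mul (1 / (8 * c)))
  rw [mul_zero, add_zero] at h3
  have h4 := h3.eventually_le_const (show (0 : ℝ) < ε ^ 2 / 2 by positivity)
  obtain ⟨N₀, h5⟩ := eventually_atTop.1 h4
  exact ⟨N₀, fun n hn => h5 n hn⟩

theorem sum_inv (M : ℕ) : ∑ h ∈ Icc 1 (M - 1), 1 / (h : ℝ) ≤ ∑ i ∈ range M, 1 / ((i : ℝ) + 1) := by
  have h1 : ∑ h ∈ Icc 1 (M - 1), 1 / (h : ℝ) = ∑ i ∈ range (M - 1), 1 / ((i : ℝ) + 1) := by
    rw [← Finset.Ico_succ_right_eq_Icc, Finset.sum_Ico_eq_sum_range]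
    simp only [Order.succ_eq_add_one, Nat.add_sub_cancel]
    refine Finset.sum_congr rfl fun i _ => ?_
    push_cast
    rw [add_comm (1 : ℝ)]
  rw [h1]
  refine Finset.sum_le_sum_of_subset_of_nonneg (Finset.range_subset_range.2 (by omega)) fun i _ _ => by positivity

/-- the distance from the integers -/
theorem dist_bound {M₁ h₁ : ℕ} (h1 : 1 ≤ h₁) (h2 : h₁ ≤ M₁) (P n : ℤ) (z : ℝ)
    (hz : |z| ≤ 1 / (2 * M₁)) :
    |z| ≤ |(P : ℝ) / h₁ + z - n| ∨ 1 / (2 * (M₁ : ℝ)) ≤ |(P : ℝ) / h₁ + z - n| := by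
  have hh : (0 : ℝ) < h₁ := by exact_mod_cast h1
  have hM : (h₁ : ℝ) ≤ M₁ := by exact_mod_cast h2
  have hM0 : (0 : ℝ) < M₁ := hh.trans_le hM
  by_cases h3 : P = n * h₁
  · left
    rw [h3]
    push_cast
    rw [mul_div_assoc, div_self hh.ne', mul_one, add_sub_cancel_left]
  · right
    have h4 : (1 : ℝ) ≤ |(P : ℝ) - n * h₁| := by
      have h5 : P - n * h₁ ≠ 0 := sub_ne_zero.2 h3
      have h6 := Int.one_le_abs h5
      have h7 : ((1 : ℤ) : ℝ) ≤ ((|P - n * h₁| : ℤ) : ℝ) := by exact_mod_cast h6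
      push_cast at h7
      exact h7
    have h8 : (P : ℝ) / h₁ + z - n = ((P : ℝ) - n * h₁) / h₁ + z := by
      field_simp
      ring
    have h9 : 1 / (M₁ : ℝ) ≤ |((P : ℝ) - n * h₁) / h₁| := by
      rw [abs_div, abs_of_pos hh]
      exact div_le_div₀ (abs_nonneg _) h4 hh hM
    have h10 : |((P : ℝ) - n * h₁) / h₁| ≤ |((P : ℝ) - n * h₁) / h₁ + z| + |z| := by
      have := abs_sub ((((P : ℝ) - n * h₁) / h₁ + z)) z
      rwa [add_sub_cancel_right] at this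
    rw [h8]
    have h11 : 1 / (M₁ : ℝ) = 1 / (2 * M₁) + 1 / (2 * M₁) := by
      field_simp
      norm_num
    linarith

theorem t_MINB : S_MINB := by
  intro hMA hV hG ε hε
  have hA := hMA hV hG ε hε
  obtain ⟨a₁, ha₁⟩ : ∃ a₁ : ℕ, 2 / ε ^ 2 < (2 : ℝ) ^ a₁ := pow_unbounded_of_one_lt _ (by norm_num)
  obtain ⟨M₁, hM₁⟩ : ∃ M₁ : ℕ, M₁ = 2 ^ a₁ := ⟨_, rfl⟩
  have hM₁r : (M₁ : ℝ) = (2 : ℝ) ^ a₁ := by rw [hM₁]; push_cast; rfl
  have hM₁1 : 1 ≤ M₁ := by rw [hM₁]; exact Nat.one_le_two_pow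
  have hM₁0 : (1 : ℝ) ≤ M₁ := by exact_mod_cast hM₁1
  rw [← hM₁r] at ha₁
  refine ⟨8 * M₁ ^ 2, by nlinarith, fun c hc => ?_⟩
  obtain ⟨N₀, hN₀⟩ := choose_N c ε hc hε
  obtain ⟨K, hK⟩ : ∃ K : ℕ, K = 2 ^ N₀ := ⟨_, rfl⟩
  have hK1 : 1 ≤ K := by rw [hK]; exact Nat.one_le_two_pow
  have hK0 : (1 : ℝ) ≤ K := by exact_mod_cast hK1
  obtain ⟨M, hM⟩ : ∃ M : ℕ, M = M₁ * K := ⟨_, rfl⟩
  have hMa : M = 2 ^ (a₁ + N₀) := by rw [hM, hM₁, hK, pow_add]
  have hMr : (M : ℝ) = (2 : ℝ) ^ (a₁ + N₀) := by rw [hMa]; push_cast; rfl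
  have hMK : (M : ℝ) = M₁ * K := by rw [hM]; push_cast; rfl
  have hM1 : (1 : ℝ) ≤ M := by rw [hMK]; nlinarith
  have hMN : N₀ ≤ M := by
    have h1 : N₀ < 2 ^ N₀ := Nat.lt_two_pow_self
    rw [← hK] at h1
    rw [hM]
    nlinarith
  have hsmall := hN₀ M hMN
  refine ⟨a₁ + N₀, ⌈4 * M * M₁ / ε ^ 2⌉₊ + 1, fun I hI α => ?_⟩
  rw [← hMa, ← hMr]
  by_contra hcon
  push Not at hcon
  obtain ⟨h1, h2⟩ := hcon
  have hI1 : 1 ≤ I := by omega
  have hI0 : (0 : ℝ) < I := by exact_mod_cast hI1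
  have hIb : 4 * M * M₁ / ε ^ 2 ≤ I := by
    refine (Nat.le_ceil _).trans ?_
    exact_mod_cast (by omega : ⌈4 * (M : ℝ) * M₁ / ε ^ 2⌉₊ ≤ I)
  have hε2 : 0 < ε ^ 2 := by positivity
  have hIb' : 4 * M * M₁ ≤ I * ε ^ 2 := (div_le_iff₀ hε2).1 hIb
  -- the first approximation
  obtain ⟨h₁, hh₁, hd⟩ := hA M₁ (K * I) ha₁ (Nat.mul_pos hK1 hI1) α (by
    have h3 := sum_split α M₁ K I
    rw [← hM] at h3
    refine lt_of_lt_of_le ?_ h3
    refine lt_of_eq_of_lt ?_ h1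
    rw [hMK]
    push_cast
    ring)
  rw [Finset.mem_Icc] at hh₁
  have hh1 : (1 : ℝ) ≤ h₁ := by exact_mod_cast hh₁.1
  have hhM : h₁ ≤ M₁ := by omega
  obtain ⟨p, hp⟩ : ∃ p : ℤ, p = round (8 * α * M₁ * h₁) := ⟨_, rfl⟩
  rw [← hp] at hd
  push_cast at hd
  obtain ⟨q, hq⟩ : ∃ q : ℕ, q = 8 * M₁ * h₁ := ⟨_, rfl⟩
  have hqr : (q : ℝ) = 8 * M₁ * h₁ := by rw [hq]; push_cast; rfl
  have hq0 : (0 : ℝ) < q := by rw [hqr]; positivity
  have h4 := h2 q p (by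
    have : 0 < 8 * M₁ * h₁ := by
      have := hh₁.1
      positivity
    omega) (by
    rw [hq, pow_two]
    nlinarith)
  obtain ⟨β, hβ⟩ : ∃ β, β = α - p / q := ⟨_, rfl⟩
  rw [← hβ] at h4
  have hβq : |β| * q ≤ 2 / (ε ^ 2 * (K * I)) := by
    have h5 : 8 * α * M₁ * h₁ - p = β * q := by
      rw [hβ, sub_mul, div_mul_cancel₀ _ hq0.ne', hqr]
      ring
    rw [h5, abs_mul, abs_of_pos hq0] at hd
    exact hd
  -- the small part
  have hz : ∀ h : ℕ, h ∈ Icc 1 (M - 1) → |8 * β * M * h| ≤ 1 / (2 * M₁) := by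
    intro h hh
    rw [Finset.mem_Icc] at hh
    have h5 : (h : ℝ) ≤ M := by exact_mod_cast (by omega : h ≤ M)
    have h6 : (0 : ℝ) ≤ h := Nat.cast_nonneg _
    have h7 : |8 * β * M * h| = (|β| * q) * (K * h / h₁) := by
      rw [abs_mul, abs_mul, abs_mul, abs_of_pos (by norm_num : (0 : ℝ) < 8), abs_of_nonneg h6,
        abs_of_pos (by linarith : (0 : ℝ) < M), hqr, hMK]
      field_simp
    rw [h7]
    have h8 : (K : ℝ) * h / h₁ ≤ K * M := by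
      rw [div_le_iff₀ (by linarith)]
      have h9 : (K : ℝ) * h ≤ K * M := mul_le_mul_of_nonneg_left h5 (by linarith)
      have h10 : (0 : ℝ) ≤ K * M := by positivity
      nlinarith
    calc |β| * q * (K * h / h₁) ≤ 2 / (ε ^ 2 * (K * I)) * (K * M) := by
          apply mul_le_mul hβq h8 (by positivity) (by positivity)
      _ = 2 * M / (ε ^ 2 * I) := by
          have : (K : ℝ) ≠ 0 := by positivity
          field_simp
      _ ≤ 1 / (2 * M₁) := by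
          rw [div_le_div_iff₀ (by positivity) (by positivity)]
          linarith
  have hgs : ∀ h : ℕ, h ∈ Icc 1 (M - 1) →
      gs (8 * α * M * h) I ≤ M₁ + I / (16 * c) * (1 / h) := by
    intro h hh
    have hzh := hz h hh
    rw [Finset.mem_Icc] at hh
    have hh0 : (0 : ℝ) < h := by exact_mod_cast hh.1
    have hx : 8 * α * M * h = ((p * (K * h : ℕ) : ℤ) : ℝ) / h₁ + 8 * β * M * h := by
      have h5 : α = p / q + β := by rw [hβ]; ring
      rw [h5, hqr, hMK]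
      push_cast
      field_simp
    have hb := dist_bound hh₁.1 hhM (p * (K * h : ℕ)) (round (8 * α * M * h)) (8 * β * M * h) hzh
    rw [← hx] at hb
    rcases hb with hb | hb
    · have h5 : 8 * c * h / I ≤ |8 * β * M * h| := by
        rw [abs_mul, abs_mul, abs_mul, abs_of_pos (by norm_num : (0 : ℝ) < 8), abs_of_pos hh0,
          abs_of_pos (by linarith : (0 : ℝ) < M)]
        have h6 : c / I ≤ |β| * M := by
          have h7 := h4.le
          rw [div_le_iff₀ (by positivity)] at h7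
          rw [div_le_iff₀ hI0]
          linarith
        calc 8 * c * h / I = 8 * (c / I) * h := by ring
          _ ≤ 8 * (|β| * M) * h := by gcongr
          _ = 8 * |β| * M * h := by ring
      have h6 := (hG (8 * α * M * h) I).2 (8 * c * h / I) (by positivity) (h5.trans hb)
      refine h6.trans ?_
      have h7 : 1 / (2 * (8 * c * h / I)) = I / (16 * c) * (1 / h) := by
        field_simp
        norm_num
      rw [h7]
      linarith
    · have h6 := (hG (8 * α * M * h) I).2 (1 / (2 * (M₁ : ℝ))) (by positivity) hb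
      refine h6.trans ?_
      have h7 : 1 / (2 * (1 / (2 * (M₁ : ℝ)))) = M₁ := by
        field_simp
      rw [h7]
      have h8 : 0 ≤ I / (16 * c) * (1 / (h : ℝ)) := by positivity
      linarith
  -- the second moment
  have hsum : ∑ h ∈ Icc 1 (M - 1), gs (8 * α * M * h) I ≤
      M * M₁ + I / (16 * c) * ∑ i ∈ range M, 1 / ((i : ℝ) + 1) := by
    refine (Finset.sum_le_sum hgs).trans ?_
    rw [Finset.sum_add_distrib, ← Finset.mul_sum, Finset.sum_const, nsmul_eq_mul, Nat.card_Icc]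
    have h5 : ((M - 1 + 1 - 1 : ℕ) : ℝ) ≤ M := by exact_mod_cast (by omega : M - 1 + 1 - 1 ≤ M)
    have h6 : ((M - 1 + 1 - 1 : ℕ) : ℝ) * M₁ ≤ M * M₁ := mul_le_mul_of_nonneg_right h5 (by linarith)
    have h7 : I / (16 * c) * ∑ h ∈ Icc 1 (M - 1), 1 / (h : ℝ) ≤
        I / (16 * c) * ∑ i ∈ range M, 1 / ((i : ℝ) + 1) :=
      mul_le_mul_of_nonneg_left (sum_inv M) (by positivity)
    linarith
  have hvdc := hV α M I
  have hsq : ∑ i ∈ range I, ‖bl α M i‖ ^ 2 ≤ ε ^ 2 * M ^ 2 * I := by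
    obtain ⟨H, hH⟩ : ∃ H, H = ∑ i ∈ range M, 1 / ((i : ℝ) + 1) := ⟨_, rfl⟩
    rw [← hH] at hsum hsmall
    have hM0 : (0 : ℝ) < M := by linarith
    have h5 : M ^ 2 * ((M : ℝ)⁻¹ + 1 / (8 * c) * ((M : ℝ)⁻¹ * H)) ≤ M ^ 2 * (ε ^ 2 / 2) :=
      mul_le_mul_of_nonneg_left hsmall (by positivity)
    have h6 : M ^ 2 * ((M : ℝ)⁻¹ + 1 / (8 * c) * ((M : ℝ)⁻¹ * H)) = M + 1 / (8 * c) * (M * H) := by
      field_simp
    rw [h6] at h5
    have h7 : 2 * (M : ℝ) * ∑ h ∈ Icc 1 (M - 1), gs (8 * α * M * h) I ≤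
        2 * M * (M * M₁ + I / (16 * c) * H) := mul_le_mul_of_nonneg_left hsum (by positivity)
    have h8 : 2 * (M : ℝ) * (M * M₁ + I / (16 * c) * H) = 2 * M ^ 2 * M₁ + 1 / (8 * c) * (M * H) * I := by
      field_simp
      ring
    have h9 : 2 * (M : ℝ) ^ 2 * M₁ ≤ M ^ 2 * (ε ^ 2 / 2) * I := by
      have h10 : 4 * (M₁ : ℝ) ≤ I * ε ^ 2 := by
        refine le_trans ?_ hIb'
        nlinarith
      have h11 : (0 : ℝ) ≤ M ^ 2 := by positivity
      nlinarith [mul_le_mul_of_nonneg_left h10 h11]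
    have h12 : (M + 1 / (8 * c) * (M * H)) * I ≤ M ^ 2 * (ε ^ 2 / 2) * I :=
      mul_le_mul_of_nonneg_right h5 hI0.le
    calc ∑ i ∈ range I, ‖bl α M i‖ ^ 2 ≤ M * I + 2 * M * ∑ h ∈ Icc 1 (M - 1), gs (8 * α * M * h) I := hvdc
      _ ≤ M * I + (2 * M ^ 2 * M₁ + 1 / (8 * c) * (M * H) * I) := by linarith
      _ = (M + 1 / (8 * c) * (M * H)) * I + 2 * M ^ 2 * M₁ := by ring
      _ ≤ M ^ 2 * (ε ^ 2 / 2) * I + M ^ 2 * (ε ^ 2 / 2) * I := by linarith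
      _ = ε ^ 2 * M ^ 2 * I := by ring
  have hcs : (∑ i ∈ range I, ‖bl α M i‖) ^ 2 ≤ (ε * M * I) ^ 2 := by
    have h5 := sq_sum_le_card_mul_sum_sq (s := range I) (f := fun i => ‖bl α M i‖)
    rw [Finset.card_range] at h5
    refine h5.trans ?_
    calc (I : ℝ) * ∑ i ∈ range I, ‖bl α M i‖ ^ 2 ≤ I * (ε ^ 2 * M ^ 2 * I) :=
          mul_le_mul_of_nonneg_left hsq hI0.le
      _ = (ε * M * I) ^ 2 := by ring
  have hfin : ∑ i ∈ range I, ‖bl α M i‖ ≤ ε * M * I :=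
    (sq_le_sq₀ (Finset.sum_nonneg fun i _ => norm_nonneg _) (by positivity)).1 hcs
  linarith

end Pool.Agent.L0h28.QE
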